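import Pool.Agent.Helper76.LD6.Num
import Pool.Agent.Helper94.LD6.TTA
import Pool.Agent.Helper68.LD6.TTB1
import Pool.Agent.Helper47.LD6.TTB2

/-!
# Project LD6, block TST: the test time
-/

set_option autoImplicit false

namespace Pool.Agent.Helper30.LD6

open Set
open Pool.Agent.Helper41.LD6 Pool.Agent.Helper76.LD6 Pool.Agent.Helper94.LD6 Pool.Agent.Helper68.LD6 Pool.Agent.Helper47.LD6

variable {F : Pm} {K : ℕ} {a₀ ℓst a ℓ : ℝ}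

/-- the test time `t`: the first one with `2 ^ (C₂ E) ≤ V t a₀ * ℓ` -/
theorem test_time (hF : F.Ok) (hK : F.Big K) (S : F.St K a₀ ℓst) (hℓ : 0 < ℓ) (h1 : a₀ ≤ a) (h2 : a + ℓ ≤ a₀ + ℓst)
    (hcount : F.T K a₀ ℓst (ℓ / 2 ^ (K ^ 3)) + F.R * F.E K ≤ 2 ^ (2 * K)) :
    ∃ t < 2 ^ (2 * K), (2 : ℝ) ^ (F.C₂ * F.E K) ≤ F.V K a₀ ℓst t a₀ * ℓ ∧ F.V K a₀ ℓst (t + F.d) (a + ℓ) * ℓ ≤ 2 ^ ((F.C₂ + 1) * F.E K) := by
  classical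
  have hKbig := num_K hK
  have hZ := num_Z hK
  obtain ⟨hX1, hd4, -, -, -, -, -, hC2, hRZ, -, -, -⟩ := num_le F
  obtain ⟨hE4, hEZ, -, -⟩ := num_E F K
  have hZE := num_ZE hK
  have hA := hF.hA
  have ha0 : F.x₁ ≤ a₀ := S.lo
  have ha01 : 1 < a₀ := lt_of_lt_of_le hF.h1 ha0
  have ha0p : 0 < a₀ := by linarith
  have hst : 0 < ℓst := S.pos
  have hle : ℓ ≤ ℓst := by linarith
  have hE1 : 1 ≤ F.E K := by omega
  -- `ℓst ≤ 1`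
  have hst1 : ℓst ≤ 1 := by
    have h3 : (1 : ℝ) ≤ 2 ^ (K ^ 4) := one_le_pow₀ (by norm_num)
    have h4 := S.sm
    calc ℓst = ℓst * 1 := (mul_one _).symm
      _ ≤ ℓst * 2 ^ (K ^ 4) := mul_le_mul_of_nonneg_left h3 hst.le
      _ ≤ 1 := h4
  have hTh0 : 0 ≤ F.Th K := by unfold Pm.Th; positivity
  have hThg := Th_ge hK
  -- the number of the doublings
  set B : ℝ := 2 ^ (K ^ 3) with hB
  have hB1 : (1 : ℝ) ≤ B := one_le_pow₀ (by norm_num)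
  have hℓB : 0 < ℓ / B := by positivity
  have hℓB' : ℓ / B ≤ ℓst := (div_le_self hℓ.le hB1).trans hle
  have hmono : Tt F.A₀ (F.Th K) a₀ ℓst ≤ Tt F.A₀ (F.Th K) a₀ (ℓ / B) := Tt_mono hF ha0 hℓB hℓB' hTh0
  -- the exponent `C₂ E ≤ C₁ E + K ^ 3`
  have hexp : F.C₂ * F.E K ≤ F.C₁ * F.E K + K ^ 3 := by
    have h3 : F.C₂ * F.E K ≤ F.Z * F.E K := Nat.mul_le_mul_right _ (by omega)
    have h4 : K ^ 2 ≤ K ^ 3 := Nat.pow_le_pow_right (by omega) (by norm_num)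
    have h5 : F.Z * F.E K ≤ 1000000 * (F.Z * F.E K) := Nat.le_mul_of_pos_left _ (by norm_num)
    omega
  have hex : ∃ j, (2 : ℝ) ^ (F.C₂ * F.E K) ≤ F.V K a₀ ℓst j a₀ * ℓ ∧ j ≤ F.T K a₀ ℓst (ℓ / B) := by
    refine ⟨F.T K a₀ ℓst (ℓ / B), ?_, le_rfl⟩
    have h3 := Tt_spec hF ha0 hℓB (F.Th K)
    have h4 : Tt F.A₀ (F.Th K) a₀ ℓst + F.T K a₀ ℓst (ℓ / B) = Tt F.A₀ (F.Th K) a₀ (ℓ / B) := by
      unfold Pm.T
      omega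
    have h5 : F.V K a₀ ℓst (F.T K a₀ ℓst (ℓ / B)) a₀ = Vf F.A₀ (Tt F.A₀ (F.Th K) a₀ (ℓ / B)) a₀ := by
      unfold Pm.V
      rw [h4]
    rw [h5]
    have h6 : F.Th K * B ≤ Vf F.A₀ (Tt F.A₀ (F.Th K) a₀ (ℓ / B)) a₀ * ℓ := by
      have h7 : Vf F.A₀ (Tt F.A₀ (F.Th K) a₀ (ℓ / B)) a₀ * (ℓ / B) * B = Vf F.A₀ (Tt F.A₀ (F.Th K) a₀ (ℓ / B)) a₀ * ℓ := by
        field_simp
      rw [← h7]
      exact mul_le_mul_of_nonneg_right h3 (by linarith)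
    refine le_trans ?_ h6
    have h8 : F.Th K * B = 2 ^ (F.C₁ * F.E K + K ^ 3) := by
      unfold Pm.Th
      rw [hB, pow_add]
    rw [h8]
    exact pow_le_pow_right₀ (by norm_num) hexp
  have hex' : ∃ j, (2 : ℝ) ^ (F.C₂ * F.E K) ≤ F.V K a₀ ℓst j a₀ * ℓ := ⟨hex.choose, hex.choose_spec.1⟩
  set t := Nat.find hex' with ht
  have ht1 : (2 : ℝ) ^ (F.C₂ * F.E K) ≤ F.V K a₀ ℓst t a₀ * ℓ := Nat.find_spec hex'
  have ht2 : t ≤ F.T K a₀ ℓst (ℓ / B) := (Nat.find_min' hex' hex.choose_spec.1).trans hex.choose_spec.2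
  have hRE : 1 ≤ F.R * F.E K := Nat.mul_pos (by unfold Pm.R; omega) hE1
  have ht3 : t < 2 ^ (2 * K) := by omega
  refine ⟨t, ht3, ht1, ?_⟩
  -- the time `t` is positive
  have hV0 : F.V K a₀ ℓst 0 a₀ * ℓ < 2 ^ (F.C₂ * F.E K) := by
    set N := Tt F.A₀ (F.Th K) a₀ ℓst with hN
    have hN2 : 2 ≤ N := Tt_two hF hst hst1 hThg ha0
    have h3 : Vf F.A₀ (N - 1) a₀ * ℓst < F.Th K := lt_Tt (by omega)
    have h4 : Vf F.A₀ ((N - 1) + 1) a₀ ≤ (2 * a₀) ^ 1 * Vf F.A₀ (N - 1) a₀ := Vf_step_le hA (by omega) ha01.le 1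
    have h5 : (N - 1) + 1 = N := by omega
    rw [h5, pow_one] at h4
    have h6 : F.V K a₀ ℓst 0 a₀ = Vf F.A₀ N a₀ := by
      unfold Pm.V
      rw [← hN, Nat.add_zero]
    rw [h6]
    have hVn : 0 ≤ Vf F.A₀ N a₀ := Vf_nonneg hA ha0p
    have ha0X : a₀ ≤ 2 ^ F.X := by
      have := S.hi
      linarith [hF.hx2]
    have h7 : Vf F.A₀ N a₀ * ℓ ≤ Vf F.A₀ N a₀ * ℓst := mul_le_mul_of_nonneg_left hle hVn
    have h8 : Vf F.A₀ N a₀ * ℓst ≤ 2 * a₀ * (Vf F.A₀ (N - 1) a₀ * ℓst) := by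
      calc Vf F.A₀ N a₀ * ℓst ≤ 2 * a₀ * Vf F.A₀ (N - 1) a₀ * ℓst := mul_le_mul_of_nonneg_right h4 hst.le
        _ = 2 * a₀ * (Vf F.A₀ (N - 1) a₀ * ℓst) := by ring
    have h9 : 2 * a₀ * (Vf F.A₀ (N - 1) a₀ * ℓst) < 2 * a₀ * F.Th K := mul_lt_mul_of_pos_left h3 (by positivity)
    have h10 : 2 * a₀ * F.Th K ≤ 2 ^ (F.X + 1 + F.C₁ * F.E K) := by
      unfold Pm.Th
      rw [pow_add, pow_succ]
      exact mul_le_mul_of_nonneg_right (by linarith) (by positivity)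
    have h12 : F.X + 1 + F.C₁ * F.E K ≤ F.C₂ * F.E K := by
      have h13 : F.C₂ = F.C₁ + F.C₀ + 30 := rfl
      have h14 : F.X + 1 ≤ 30 * F.E K := by omega
      calc F.X + 1 + F.C₁ * F.E K ≤ 30 * F.E K + F.C₁ * F.E K := by omega
        _ = (F.C₁ + 30) * F.E K := by ring
        _ ≤ (F.C₁ + F.C₀ + 30) * F.E K := Nat.mul_le_mul_right _ (by omega)
        _ = F.C₂ * F.E K := by rw [h13]
    have h15 : (2 : ℝ) ^ (F.X + 1 + F.C₁ * F.E K) ≤ 2 ^ (F.C₂ * F.E K) := pow_le_pow_right₀ (by norm_num) h12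
    linarith
  have htpos : t ≠ 0 := by
    intro h
    rw [h] at ht1
    linarith
  obtain ⟨u, hu⟩ := Nat.exists_eq_succ_of_ne_zero htpos
  have hu1 : F.V K a₀ ℓst u a₀ * ℓ < 2 ^ (F.C₂ * F.E K) := by
    have h3 := Nat.find_min hex' (m := u) (by omega)
    exact not_le.1 h3
  have h3 : F.V K a₀ ℓst (u + (F.d + 1)) a₀ ≤ 2 ^ F.E K / 8 * F.V K a₀ ℓst u a₀ :=
    V_steps hF hK S le_rfl (by linarith) le_rfl
  have h4 : u + (F.d + 1) = t + F.d := by omega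
  rw [h4] at h3
  have h5 := (V_near hF hK S (a := a₀) (x := a + ℓ) (j := t + F.d) le_rfl (by linarith) h2 (by omega)).2
  have hVt : 0 ≤ F.V K a₀ ℓst u a₀ := Vf_nonneg hA ha0p
  calc F.V K a₀ ℓst (t + F.d) (a + ℓ) * ℓ ≤ 2 * F.V K a₀ ℓst (t + F.d) a₀ * ℓ := mul_le_mul_of_nonneg_right h5 hℓ.le
    _ ≤ 2 * (2 ^ F.E K / 8 * F.V K a₀ ℓst u a₀) * ℓ := by
        refine mul_le_mul_of_nonneg_right ?_ hℓ.le
        linarith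
    _ = 2 ^ F.E K / 4 * (F.V K a₀ ℓst u a₀ * ℓ) := by ring
    _ ≤ 2 ^ F.E K / 4 * 2 ^ (F.C₂ * F.E K) := mul_le_mul_of_nonneg_left hu1.le (by positivity)
    _ ≤ 2 ^ F.E K * 2 ^ (F.C₂ * F.E K) := by
        have h6 : (0 : ℝ) < 2 ^ F.E K * 2 ^ (F.C₂ * F.E K) := by positivity
        linarith
    _ = 2 ^ ((F.C₂ + 1) * F.E K) := by rw [← pow_add]; ring_nf

end Pool.Agent.Helper30.LD6
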